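import Pool.Agent.H99.JM.MK

/-!
# Multilinear Kakeya in entropy form, with a loss which does not depend on the angle

`mkl`: the theorem `Pool.MKE.mk`, where the covectors are only bounded by `2 ^ kap`, with a loss
`C (b + m + kap + 1)`: the angle is paid once and not for each block. The basis is rounded to
`c + 1` digits; given the rounded basis a linear change of the coordinates brings the flats into a
position with constants which only depend on `c`.
-/

set_option autoImplicit false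

namespace Pool.MKE

open Finset Real
open Pool.Agent.H49.Ent Pool.Agent.H32.Dense Pool.STK

variable {Ω S T U κ : Type} [Fintype Ω] {c r : ℕ}

/-- A left inverse of a square matrix is a right inverse. -/
theorem inv_swap {e d : Fin c → Fin c → ℝ}
    (h : ∀ (v : Fin c → ℝ) (j : Fin c), v j = ∑ i, d i j * ∑ k, e i k * v k) (i j : Fin c) :
    ∑ k, e i k * d j k = if i = j then 1 else 0 := by
  have h1 : (Matrix.of fun j i => d i j) * (Matrix.of fun i k => e i k) =
      (1 : Matrix (Fin c) (Fin c) ℝ) := by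
    ext a b
    have h2 := h (fun k => if k = b then 1 else 0) a
    rw [Matrix.mul_apply, Matrix.one_apply]
    simp only [Matrix.of_apply]
    rw [show (∑ x, d x a * e x b) = ∑ i, d i a * ∑ k, e i k * (if k = b then 1 else 0) by
      refine Finset.sum_congr rfl fun x _ => ?_
      simp]
    rw [← h2]
  have h3 := mul_eq_one_comm.1 h1
  have h4 := congrFun (congrFun h3 i) j
  rw [Matrix.mul_apply, Matrix.one_apply] at h4
  simpa using h4

/-- A sample with the value `v` of `D`. -/
noncomputable def rps (p : Ω → ℝ) (D : Ω → T) (ω : Ω) : Ω := by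
  classical
  exact if h : ∃ ω', 0 < p ω' ∧ D ω' = D ω then h.choose else ω

theorem rps_spec {p : Ω → ℝ} {D : Ω → T} {ω : Ω} (h : 0 < p ω) :
    0 < p (rps p D ω) ∧ D (rps p D ω) = D ω := by
  have h1 : ∃ ω', 0 < p ω' ∧ D ω' = D ω := ⟨ω, h, rfl⟩
  unfold rps
  rw [dif_pos h1]
  exact h1.choose_spec

theorem rps_eq {p : Ω → ℝ} {D : Ω → T} {ω ω' : Ω} (h0 : 0 < p ω) (h : D ω = D ω') :
    rps p D ω = rps p D ω' := by
  have h1 : ∃ ω₁, 0 < p ω₁ ∧ D ω₁ = D ω := ⟨ω, h0, rfl⟩
  have h2 : ∃ ω₁, 0 < p ω₁ ∧ D ω₁ = D ω' := ⟨ω, h0, h⟩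
  unfold rps
  rw [dif_pos h1, dif_pos h2]
  congr 1
  rw [h]

/-- The loss of `mkl`. -/
noncomputable def lsl (c r : ℕ) (B : ℝ) (m b kap : ℕ) : ℝ :=
  (b + ((kap + c) / m + 1) : ℕ) * loss c r 4 (2 * B) + r * ini c 4 m +
    r * (c * Real.log (2 * (c + 1) + 1)) + c * Real.log (2 * (c * 2 ^ kap + 1) + 1) +
    r * ((c * c : ℕ) * Real.log (2 * (2 ^ (c + 1) * (2 * 2 ^ kap) + 1) + 1))

/-- **Multilinear Kakeya in entropy form**, the angle is paid once. -/
theorem mkl {p : Ω → ℝ} (hp : IsLaw p) {x : Ω → Fin c → ℝ} {e d : Ω → Fin c → Fin c → ℝ}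
    {B : ℝ} {R m b kap : ℕ} (hm : 0 < m) (hR : R = m * b) (hB : 0 ≤ B)
    (hx : ∀ ω, 0 < p ω → ∀ j, |x ω j| ≤ 1)
    (hinv : ∀ ω, 0 < p ω → ∀ (v : Fin c → ℝ) (j : Fin c),
      v j = ∑ i, d ω i j * ∑ k, e ω i k * v k)
    (hd : ∀ ω, 0 < p ω → ∀ i j, |d ω i j| ≤ 1)
    (he : ∀ ω, 0 < p ω → ∀ i j, |e ω i j| ≤ 2 ^ kap)
    (g : Fin c → Fin r) {Λ : Fin r → Type} (Lam : ∀ a, Ω → Λ a) (W : Ω → κ)
    (hl : ∀ a ω ω', 0 < p ω → 0 < p ω' → Lam a ω = Lam a ω' → W ω = W ω' → ∀ k, g k ≠ a →
      |∑ j, e ω k j * (x ω j - x ω' j)| ≤ B / 2 ^ R) :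
    ∑ a, CH p (fun ω => fl R (x ω)) (fun ω => (Lam a ω, W ω)) ≤
      CH p (fun ω => fl R (x ω)) W + lsl c r B m b kap := by
  have hp0 := hp.nonneg
  have hc2 : (c : ℝ) ≤ 2 ^ c := by exact_mod_cast Nat.lt_two_pow_self.le
  obtain ⟨q, hq⟩ : ∃ q, q = (kap + c) / m + 1 := ⟨_, rfl⟩
  have hqm : kap + c ≤ m * q := by
    have h1 := Nat.div_add_mod (kap + c) m
    have h2 := Nat.mod_lt (kap + c) hm
    rw [hq, Nat.mul_add, Nat.mul_one]
    omega
  -- the rounded basis
  obtain ⟨D, hD⟩ : ∃ D : Ω → Fin c → Fin c → ℤ, D = rdc (c + 1) e := ⟨_, rfl⟩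
  obtain ⟨o, ho⟩ : ∃ o : Ω → Ω, o = rps p D := ⟨_, rfl⟩
  have o1 : ∀ ω, 0 < p ω → 0 < p (o ω) := fun ω h => by
    rw [ho]
    exact (rps_spec (D := D) h).1
  have o2 : ∀ ω, 0 < p ω → ∀ i j, |e (o ω) i j - e ω i j| ≤ 1 / 2 ^ c := by
    intro ω h i j
    have h1 : D (o ω) = D ω := by
      rw [ho]
      exact (rps_spec (D := D) h).2
    have h2 := rdc_near (c + 1) e (o ω) i j
    have h3 := rdc_near (c + 1) e ω i j
    rw [← hD] at h2 h3
    rw [h1] at h2
    have h4 : e (o ω) i j - e ω i j = ((D ω i j : ℝ) / 2 ^ (c + 1) - e ω i j) -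
        ((D ω i j : ℝ) / 2 ^ (c + 1) - e (o ω) i j) := by ring
    rw [h4]
    refine (abs_sub _ _).trans ?_
    have h5 : (1 : ℝ) / 2 ^ (c + 1) + 1 / 2 ^ (c + 1) = 1 / 2 ^ c := by
      rw [pow_succ]
      field_simp
      norm_num
    linarith
  have o3 : ∀ ω ω', 0 < p ω → D ω = D ω' → o ω = o ω' := by
    intro ω ω' h h'
    rw [ho]
    exact rps_eq h h'
  -- the products of the bases
  have s1 : ∀ ω, 0 < p ω → ∀ i j, |∑ k, d ω i k * e (o ω) j k| ≤ 2 := by
    intro ω h i j
    have h1 := inv_swap (hinv ω h) j i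
    have h2 : ∑ k, d ω i k * e (o ω) j k =
        (∑ k, e ω j k * d ω i k) + ∑ k, d ω i k * (e (o ω) j k - e ω j k) := by
      rw [← Finset.sum_add_distrib]
      exact Finset.sum_congr rfl fun k _ => by ring
    have h3 : |∑ k, d ω i k * (e (o ω) j k - e ω j k)| ≤ 1 := by
      refine (Finset.abs_sum_le_sum_abs _ _).trans ?_
      calc ∑ k, |d ω i k * (e (o ω) j k - e ω j k)| ≤ ∑ _k : Fin c, (1 : ℝ) / 2 ^ c := by
            refine Finset.sum_le_sum fun k _ => ?_
            rw [abs_mul]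
            calc |d ω i k| * |e (o ω) j k - e ω j k| ≤ 1 * (1 / 2 ^ c) :=
                  mul_le_mul (hd ω h i k) (o2 ω h j k) (abs_nonneg _) zero_le_one
              _ = 1 / 2 ^ c := one_mul _
        _ = c / 2 ^ c := by
            rw [Finset.sum_const, Finset.card_univ, Fintype.card_fin, nsmul_eq_mul]
            ring
        _ ≤ 1 := by
            rw [div_le_one (by positivity)]
            exact hc2
    rw [h2, h1]
    refine (abs_add_le _ _).trans ?_
    have h4 : |(if j = i then (1 : ℝ) else 0)| ≤ 1 := by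
      split_ifs <;> simp
    linarith
  have s2 : ∀ ω, 0 < p ω → ∀ i j, |∑ k, e ω i k * d (o ω) j k| ≤ 2 := by
    intro ω h i j
    have h1 := inv_swap (hinv (o ω) (o1 ω h)) i j
    have h2 : ∑ k, e ω i k * d (o ω) j k =
        (∑ k, e (o ω) i k * d (o ω) j k) - ∑ k, (e (o ω) i k - e ω i k) * d (o ω) j k := by
      rw [← Finset.sum_sub_distrib]
      exact Finset.sum_congr rfl fun k _ => by ring
    have h3 : |∑ k, (e (o ω) i k - e ω i k) * d (o ω) j k| ≤ 1 := by
      refine (Finset.abs_sum_le_sum_abs _ _).trans ?_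
      calc ∑ k, |(e (o ω) i k - e ω i k) * d (o ω) j k| ≤ ∑ _k : Fin c, (1 : ℝ) / 2 ^ c := by
            refine Finset.sum_le_sum fun k _ => ?_
            rw [abs_mul]
            calc |e (o ω) i k - e ω i k| * |d (o ω) j k| ≤ (1 / 2 ^ c) * 1 :=
                  mul_le_mul (o2 ω h i k) (hd (o ω) (o1 ω h) j k) (abs_nonneg _) (by positivity)
              _ = 1 / 2 ^ c := mul_one _
        _ = c / 2 ^ c := by
            rw [Finset.sum_const, Finset.card_univ, Fintype.card_fin, nsmul_eq_mul]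
            ring
        _ ≤ 1 := by
            rw [div_le_one (by positivity)]
            exact hc2
    rw [h2, h1]
    refine (abs_sub _ _).trans ?_
    have h4 : |(if i = j then (1 : ℝ) else 0)| ≤ 1 := by
      split_ifs <;> simp
    linarith
  -- the new coordinates
  obtain ⟨y, hy⟩ : ∃ y : Ω → Fin c → ℝ, y = fun ω i =>
    (∑ k, e (o ω) i k * x ω k) / 2 ^ (m * q) := ⟨_, rfl⟩
  obtain ⟨e', he'⟩ : ∃ e' : Ω → Fin c → Fin c → ℝ, e' = fun ω i j =>
    2 * ∑ k, e ω i k * d (o ω) j k := ⟨_, rfl⟩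
  obtain ⟨d', hd'⟩ : ∃ d' : Ω → Fin c → Fin c → ℝ, d' = fun ω i j =>
    (∑ k, d ω i k * e (o ω) j k) / 2 := ⟨_, rfl⟩
  -- the old coordinates of a vector in terms of the new ones
  have t1 : ∀ ω, 0 < p ω → ∀ (v : Fin c → ℝ) (i : Fin c),
      ∑ j, (∑ k, e ω i k * d (o ω) j k) * ∑ l, e (o ω) j l * v l = ∑ k, e ω i k * v k := by
    intro ω h v i
    have h1 : ∀ k, v k = ∑ j, d (o ω) j k * ∑ l, e (o ω) j l * v l :=
      fun k => hinv (o ω) (o1 ω h) v k
    calc ∑ j, (∑ k, e ω i k * d (o ω) j k) * ∑ l, e (o ω) j l * v l =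
        ∑ j, ∑ k, e ω i k * (d (o ω) j k * ∑ l, e (o ω) j l * v l) := by
          refine Finset.sum_congr rfl fun j _ => ?_
          rw [Finset.sum_mul]
          exact Finset.sum_congr rfl fun k _ => by ring
      _ = ∑ k, e ω i k * ∑ j, d (o ω) j k * ∑ l, e (o ω) j l * v l := by
          rw [Finset.sum_comm]
          exact Finset.sum_congr rfl fun k _ => (Finset.mul_sum _ _ _).symm
      _ = _ := Finset.sum_congr rfl fun k _ => by rw [← h1 k]
  have hmk := mk hp (x := y) (e := e') (d := d') (K := 4) (B := 2 * B) (R := m * (b + q))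
    (m := m) (b := b + q) rfl (by linarith) ?_ ?_ ?_ ?_ g Lam (fun ω => (W ω, D ω)) ?_
  · -- conclusion
    have b1 : ∀ a, CH p (fun ω => fl R (x ω)) (fun ω => (Lam a ω, W ω)) ≤
        CH p (fun ω => fl (m * (b + q)) (y ω)) (fun ω => (Lam a ω, (W ω, D ω))) +
          c * Real.log (2 * (c + 1) + 1) +
          (c * c : ℕ) * Real.log (2 * (2 ^ (c + 1) * (2 * 2 ^ kap) + 1) + 1) := by
      intro a
      have c1 := CH_le_add hp0 (fun ω => fl R (x ω)) D (fun ω => (Lam a ω, W ω))
      have c2 : CH p D (fun ω => (Lam a ω, W ω)) ≤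
          (c * c : ℕ) * Real.log (2 * (2 ^ (c + 1) * (2 * 2 ^ kap) + 1) + 1) := by
        have c3 : CH p D (fun ω => (Lam a ω, W ω)) ≤ CH p (fun ω (k : Fin (c * c)) =>
            D ω (finProdFinEquiv.symm k).1 (finProdFinEquiv.symm k).2)
              (fun ω => (Lam a ω, W ω)) := by
          refine CH_mono_left hp0 fun ω ω' _ _ hh => ?_
          refine funext fun i => funext fun j => ?_
          have h5 := congrFun (Prod.ext_iff.1 hh).1 (finProdFinEquiv (i, j))
          simp only [Equiv.symm_apply_apply] at h5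
          exact h5
        refine c3.trans (CH_vecc hp _ _ fun ω ω' h0 h0' _ k => ?_)
        rw [hD]
        refine floor_two ?_
        rw [← mul_sub, abs_mul, abs_of_pos (by positivity : (0 : ℝ) < 2 ^ (c + 1))]
        refine mul_le_mul_of_nonneg_left ?_ (by positivity)
        refine (abs_sub _ _).trans ?_
        have h5 := he ω h0 (finProdFinEquiv.symm k).1 (finProdFinEquiv.symm k).2
        have h6 := he ω' h0' (finProdFinEquiv.symm k).1 (finProdFinEquiv.symm k).2
        linarith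
      have c4 := CH_le_add hp0 (fun ω => fl R (x ω)) (fun ω => fl (m * (b + q)) (y ω))
        (fun ω => (D ω, (Lam a ω, W ω)))
      have c5 : CH p (fun ω => fl (m * (b + q)) (y ω)) (fun ω => (D ω, (Lam a ω, W ω))) =
          CH p (fun ω => fl (m * (b + q)) (y ω)) (fun ω => (Lam a ω, (W ω, D ω))) := by
        refine CH_congr hp0 (fun _ _ _ _ h => (Prod.ext_iff.1 h).1)
          (fun _ _ _ _ h => (Prod.ext_iff.1 h).1) ?_ ?_
        · intro ω ω' _ _ hh
          simp only [Prod.mk.injEq] at hh ⊢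
          tauto
        · intro ω ω' _ _ hh
          simp only [Prod.mk.injEq] at hh ⊢
          tauto
      have c6 : CH p (fun ω => fl R (x ω))
          (fun ω => (fl (m * (b + q)) (y ω), (D ω, (Lam a ω, W ω)))) ≤
          c * Real.log (2 * (c + 1) + 1) := by
        refine CH_vecc hp _ _ fun ω ω' h0 h0' h k => ?_
        simp only [Prod.mk.injEq] at h
        obtain ⟨h1, h2, -⟩ := h
        refine floor_two ?_
        have h3 := o3 ω ω' h0 h2
        have h4 : (2 : ℝ) ^ R * x ω k - 2 ^ R * x ω' k =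
            ∑ i, d (o ω) i k * (2 ^ (m * (b + q)) * (y ω i - y ω' i)) := by
          have h5 := hinv (o ω) (o1 ω h0) (fun j => x ω j - x ω' j) k
          rw [← mul_sub, h5, Finset.mul_sum]
          refine Finset.sum_congr rfl fun i _ => ?_
          have h6 : (2 : ℝ) ^ (m * (b + q)) * (y ω i - y ω' i) =
              2 ^ R * ∑ k, e (o ω) i k * (x ω k - x ω' k) := by
            rw [hy]
            simp only
            rw [← h3, hR, Nat.mul_add, pow_add]
            have h7 : ∑ k, e (o ω) i k * (x ω k - x ω' k) =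
                ∑ k, e (o ω) i k * x ω k - ∑ k, e (o ω) i k * x ω' k := by
              rw [← Finset.sum_sub_distrib]
              exact Finset.sum_congr rfl fun k _ => by ring
            rw [h7]
            field_simp
          rw [h6]
          ring
        rw [h4]
        refine (Finset.abs_sum_le_sum_abs _ _).trans ?_
        calc ∑ i, |d (o ω) i k * (2 ^ (m * (b + q)) * (y ω i - y ω' i))| ≤
            ∑ _i : Fin c, (1 : ℝ) := by
              refine Finset.sum_le_sum fun i _ => ?_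
              rw [abs_mul, abs_mul, abs_of_pos (by positivity : (0 : ℝ) < 2 ^ (m * (b + q)))]
              calc |d (o ω) i k| * (2 ^ (m * (b + q)) * |y ω i - y ω' i|) ≤ 1 * 1 :=
                    mul_le_mul (hd _ (o1 ω h0) i k) (fl_same h1 i) (by positivity) zero_le_one
                _ = 1 := one_mul _
          _ = c := by simp
      rw [c5] at c4
      linarith
    have b2 : CH p (fun ω => fl (m * (b + q)) (y ω)) (fun ω => (W ω, D ω)) ≤
        CH p (fun ω => fl R (x ω)) W + c * Real.log (2 * (c * 2 ^ kap + 1) + 1) := by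
      have c1 := CH_le_add hp0 (fun ω => fl (m * (b + q)) (y ω)) (fun ω => fl R (x ω))
        (fun ω => (W ω, D ω))
      have c2 : CH p (fun ω => fl R (x ω)) (fun ω => (W ω, D ω)) ≤
          CH p (fun ω => fl R (x ω)) W :=
        CH_mono_cond hp0 fun ω ω' _ _ hh => (Prod.ext_iff.1 hh).1
      have c3 : CH p (fun ω => fl (m * (b + q)) (y ω))
          (fun ω => (fl R (x ω), (W ω, D ω))) ≤
          c * Real.log (2 * (c * 2 ^ kap + 1) + 1) := by
        refine CH_vecc hp _ _ fun ω ω' h0 h0' h k => ?_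
        simp only [Prod.mk.injEq] at h
        obtain ⟨h1, -, h2⟩ := h
        refine floor_two ?_
        have h3 := o3 ω ω' h0 h2
        have h4 : (2 : ℝ) ^ (m * (b + q)) * y ω k - 2 ^ (m * (b + q)) * y ω' k =
            ∑ l, e (o ω) k l * (2 ^ R * (x ω l - x ω' l)) := by
          rw [hy]
          simp only
          rw [← h3, hR, Nat.mul_add, pow_add, Finset.sum_congr rfl fun l _ =>
            show e (o ω) k l * (2 ^ (m * b) * (x ω l - x ω' l)) =
              2 ^ (m * b) * (e (o ω) k l * x ω l) - 2 ^ (m * b) * (e (o ω) k l * x ω' l) by ring,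
            Finset.sum_sub_distrib, ← Finset.mul_sum, ← Finset.mul_sum]
          field_simp
        rw [h4]
        refine (Finset.abs_sum_le_sum_abs _ _).trans ?_
        calc ∑ l, |e (o ω) k l * (2 ^ R * (x ω l - x ω' l))| ≤ ∑ _l : Fin c, (2 : ℝ) ^ kap := by
              refine Finset.sum_le_sum fun l _ => ?_
              rw [abs_mul, abs_mul, abs_of_pos (by positivity : (0 : ℝ) < 2 ^ R)]
              calc |e (o ω) k l| * (2 ^ R * |x ω l - x ω' l|) ≤ 2 ^ kap * 1 :=
                    mul_le_mul (he _ (o1 ω h0) k l) (fl_same h1 l) (by positivity) (by positivity)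
                _ = 2 ^ kap := mul_one _
          _ = c * 2 ^ kap := by
              rw [Finset.sum_const, Finset.card_univ, Fintype.card_fin, nsmul_eq_mul]
      linarith
    have b3 := Finset.sum_le_sum fun a (_ : a ∈ (univ : Finset (Fin r))) => b1 a
    rw [Finset.sum_add_distrib, Finset.sum_add_distrib, Finset.sum_const, Finset.sum_const,
      Finset.card_univ, Fintype.card_fin, nsmul_eq_mul, nsmul_eq_mul] at b3
    unfold lsl
    rw [hq] at hmk b2 b3
    linarith
  · -- the new coordinates are bounded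
    intro ω h j
    rw [hy]
    simp only
    rw [abs_div, abs_of_pos (by positivity : (0 : ℝ) < 2 ^ (m * q)), div_le_one (by positivity)]
    refine (Finset.abs_sum_le_sum_abs _ _).trans ?_
    calc ∑ k, |e (o ω) j k * x ω k| ≤ ∑ _k : Fin c, (2 : ℝ) ^ kap := by
          refine Finset.sum_le_sum fun k _ => ?_
          rw [abs_mul]
          calc |e (o ω) j k| * |x ω k| ≤ 2 ^ kap * 1 :=
                mul_le_mul (he _ (o1 ω h) j k) (hx ω h k) (abs_nonneg _) (by positivity)
            _ = 2 ^ kap := mul_one _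
      _ = c * 2 ^ kap := by
          rw [Finset.sum_const, Finset.card_univ, Fintype.card_fin, nsmul_eq_mul]
      _ ≤ 2 ^ c * 2 ^ kap := mul_le_mul_of_nonneg_right hc2 (by positivity)
      _ = 2 ^ (kap + c) := by rw [pow_add]; ring
      _ ≤ 2 ^ (m * q) := pow_le_pow_right₀ (by norm_num) hqm
  · -- the new basis
    intro ω h v j
    rw [hd', he']
    simp only
    obtain ⟨u, hu⟩ : ∃ u : Fin c → ℝ, u = fun l => ∑ k, d (o ω) k l * v k := ⟨_, rfl⟩
    have h1 : ∀ i, ∑ k, (2 * ∑ l, e ω i l * d (o ω) k l) * v k =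
        2 * ∑ l, e ω i l * u l := by
      intro i
      rw [hu, Finset.mul_sum]
      simp only
      calc ∑ k, (2 * ∑ l, e ω i l * d (o ω) k l) * v k =
          ∑ k, ∑ l, 2 * (e ω i l * (d (o ω) k l * v k)) := by
            refine Finset.sum_congr rfl fun k _ => ?_
            rw [Finset.mul_sum, Finset.sum_mul]
            exact Finset.sum_congr rfl fun l _ => by ring
        _ = _ := by
            rw [Finset.sum_comm]
            refine Finset.sum_congr rfl fun l _ => ?_
            rw [Finset.mul_sum, Finset.mul_sum]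
    have h2 : ∀ i, (∑ k, d ω i k * e (o ω) j k) / 2 *
        ∑ k, (2 * ∑ l, e ω i l * d (o ω) k l) * v k =
        ∑ k, e (o ω) j k * (d ω i k * ∑ l, e ω i l * u l) := by
      intro i
      rw [h1]
      rw [show (∑ k, d ω i k * e (o ω) j k) / 2 * (2 * ∑ l, e ω i l * u l) =
        (∑ k, d ω i k * e (o ω) j k) * ∑ l, e ω i l * u l by ring, Finset.sum_mul]
      exact Finset.sum_congr rfl fun k _ => by ring
    rw [Finset.sum_congr rfl fun i _ => h2 i, Finset.sum_comm]
    have h3 : ∀ k, ∑ i, e (o ω) j k * (d ω i k * ∑ l, e ω i l * u l) = e (o ω) j k * u k := by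
      intro k
      rw [← Finset.mul_sum, ← hinv ω h u k]
    rw [Finset.sum_congr rfl fun k _ => h3 k, hu]
    simp only
    calc v j = ∑ k, (if j = k then (1 : ℝ) else 0) * v k := by simp
      _ = ∑ k, (∑ l, e (o ω) j l * d (o ω) k l) * v k :=
          Finset.sum_congr rfl fun k _ => by rw [inv_swap (hinv (o ω) (o1 ω h)) j k]
      _ = ∑ k, ∑ l, e (o ω) j l * (d (o ω) k l * v k) := by
          refine Finset.sum_congr rfl fun k _ => ?_
          rw [Finset.sum_mul]
          exact Finset.sum_congr rfl fun l _ => by ring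
      _ = _ := by
          rw [Finset.sum_comm]
          exact Finset.sum_congr rfl fun l _ => (Finset.mul_sum _ _ _).symm
  · intro ω h i j
    rw [hd']
    simp only
    rw [abs_div, abs_two]
    have := s1 ω h i j
    linarith
  · intro ω h i j
    rw [he']
    simp only
    rw [abs_mul, abs_two]
    have := s2 ω h i j
    linarith
  · intro a ω ω' h0 h0' h1 h2 k hk
    rw [Prod.mk.injEq] at h2
    have h3 := o3 ω ω' h0 h2.2
    have h4 := hl a ω ω' h0 h0' h1 h2.1 k hk
    have h5 : ∑ j, e' ω k j * (y ω j - y ω' j) =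
        2 * (∑ j, e ω k j * (x ω j - x ω' j)) / 2 ^ (m * q) := by
      rw [← t1 ω h0 (fun j => x ω j - x ω' j) k, he', hy]
      simp only
      rw [← h3, Finset.mul_sum, Finset.sum_div]
      refine Finset.sum_congr rfl fun j _ => ?_
      have h6 : ∑ l, e (o ω) j l * (x ω l - x ω' l) =
          ∑ l, e (o ω) j l * x ω l - ∑ l, e (o ω) j l * x ω' l := by
        rw [← Finset.sum_sub_distrib]
        exact Finset.sum_congr rfl fun l _ => by ring
      rw [h6]
      ring
    rw [h5, abs_div, abs_mul, abs_two, abs_of_pos (by positivity : (0 : ℝ) < 2 ^ (m * q)),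
      div_le_div_iff₀ (by positivity) (by positivity)]
    have h7 : (2 : ℝ) ^ (m * (b + q)) = 2 ^ R * 2 ^ (m * q) := by
      rw [hR, Nat.mul_add, pow_add]
    rw [h7]
    have h8 : |∑ j, e ω k j * (x ω j - x ω' j)| * 2 ^ R ≤ B := by
      rwa [le_div_iff₀ (by positivity)] at h4
    calc 2 * |∑ j, e ω k j * (x ω j - x ω' j)| * (2 ^ R * 2 ^ (m * q)) =
        2 * (|∑ j, e ω k j * (x ω j - x ω' j)| * 2 ^ R) * 2 ^ (m * q) := by ring
      _ ≤ 2 * B * 2 ^ (m * q) := by
          refine mul_le_mul_of_nonneg_right ?_ (by positivity)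
          linarith

theorem log_lin {A : ℝ} (hA : 1 ≤ A) (k : ℕ) {y : ℝ} (hy : 0 < y) (h : y ≤ A * 2 ^ k) :
    Real.log y ≤ Real.log A + k := by
  have h1 := Real.log_le_log hy h
  rw [Real.log_mul (by positivity) (by positivity), Real.log_pow] at h1
  have h2 : Real.log 2 ≤ 1 := by
    have := Real.log_two_lt_d9
    linarith
  have h3 : (k : ℝ) * Real.log 2 ≤ k * 1 := mul_le_mul_of_nonneg_left h2 (Nat.cast_nonneg k)
  linarith

/-- The loss of `mkl` is linear. -/
theorem lsl_le (c r : ℕ) {B : ℝ} (hB : 0 ≤ B) : ∃ C : ℝ, 1 ≤ C ∧ ∀ m b kap : ℕ,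
    lsl c r B m b kap ≤ C * (b + m + kap + 1) := by
  have l0 : 0 ≤ loss c r 4 (2 * B) := by
    unfold loss
    have a1 : 0 ≤ Real.log (2 * (c * (4 + 1) + 1) + 1) :=
      Real.log_nonneg (by
        have : (0 : ℝ) ≤ c * (4 + 1) := by positivity
        linarith)
    have a2 : 0 ≤ Real.log (2 * (c * (c + 1) + 1) + 1) :=
      Real.log_nonneg (by
        have : (0 : ℝ) ≤ c * (c + 1) := by positivity
        linarith)
    have a3 : 0 ≤ Real.log (2 * (2 * B + c + 1) + 1) :=
      Real.log_nonneg (by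
        have : (0 : ℝ) ≤ c := by positivity
        linarith)
    positivity
  have l7 : 0 ≤ Real.log 7 := Real.log_nonneg (by norm_num)
  have l19 : 0 ≤ Real.log 19 := Real.log_nonneg (by norm_num)
  have lc : 0 ≤ Real.log (2 * (c + 1) + 1) := Real.log_nonneg (by
    have : (0 : ℝ) ≤ c := by positivity
    linarith)
  obtain ⟨A₁, hA₁⟩ : ∃ A₁ : ℝ, A₁ = 2 * c + 3 := ⟨_, rfl⟩
  obtain ⟨A₂, hA₂⟩ : ∃ A₂ : ℝ, A₂ = 2 * (2 ^ (c + 1) * 2) + 3 := ⟨_, rfl⟩
  have hA₁1 : 1 ≤ A₁ := by
    rw [hA₁]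
    have : (0 : ℝ) ≤ c := by positivity
    linarith
  have hA₂1 : 1 ≤ A₂ := by
    rw [hA₂]
    have : (0 : ℝ) ≤ 2 * (2 ^ (c + 1) * 2) := by positivity
    linarith
  have k1 : 0 ≤ Real.log A₁ := Real.log_nonneg hA₁1
  have k2 : 0 ≤ Real.log A₂ := Real.log_nonneg hA₂1
  obtain ⟨C, hC⟩ : ∃ C : ℝ, C = 1 + (c + 1) * loss c r 4 (2 * B) +
    r * (c * Real.log 7 + (c * c : ℕ) * (Real.log 19 + 1)) +
    r * (c * Real.log (2 * (c + 1) + 1)) + c * (Real.log A₁ + 1) +
    r * ((c * c : ℕ) * (Real.log A₂ + 1)) := ⟨_, rfl⟩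
  refine ⟨C, ?_, fun m b kap => ?_⟩
  · rw [hC]
    have : 0 ≤ (c + 1) * loss c r 4 (2 * B) +
      r * (c * Real.log 7 + (c * c : ℕ) * (Real.log 19 + 1)) +
      r * (c * Real.log (2 * (c + 1) + 1)) + c * (Real.log A₁ + 1) +
      r * ((c * c : ℕ) * (Real.log A₂ + 1)) := by positivity
    linarith
  · have hb : (0 : ℝ) ≤ b := Nat.cast_nonneg b
    have hm : (0 : ℝ) ≤ m := Nat.cast_nonneg m
    have hk : (0 : ℝ) ≤ kap := Nat.cast_nonneg kap
    have hc : (0 : ℝ) ≤ c := Nat.cast_nonneg c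
    have hr : (0 : ℝ) ≤ r := Nat.cast_nonneg r
    obtain ⟨s, hs⟩ : ∃ s : ℝ, s = b + m + kap + 1 := ⟨_, rfl⟩
    have hs1 : 1 ≤ s := by rw [hs]; linarith
    rw [← hs]
    have e1 : ((b + ((kap + c) / m + 1) : ℕ) : ℝ) ≤ (c + 1) * s := by
      have h1 : (kap + c) / m ≤ kap + c := Nat.div_le_self _ _
      have h2 : ((b + ((kap + c) / m + 1) : ℕ) : ℝ) ≤ ((b + (kap + c + 1) : ℕ) : ℝ) := by
        exact_mod_cast by omega
      refine h2.trans ?_
      push_cast
      have h3 : (c : ℝ) * 1 ≤ c * s := mul_le_mul_of_nonneg_left hs1 hc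
      rw [add_mul, one_mul]
      linarith
    have e2 : ini c 4 m ≤ (c * Real.log 7 + (c * c : ℕ) * (Real.log 19 + 1)) * s := by
      have h1 : Real.log (2 * (2 ^ m * (2 * 4) + 1) + 1) ≤ Real.log 19 + m := by
        refine log_lin (by norm_num) m (by positivity) ?_
        have : (1 : ℝ) ≤ 2 ^ m := one_le_pow₀ (by norm_num)
        linarith
      have h2 : Real.log 19 + m ≤ (Real.log 19 + 1) * s := by
        have h3 : Real.log 19 * 1 ≤ Real.log 19 * s := mul_le_mul_of_nonneg_left hs1 l19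
        rw [add_mul, one_mul]
        linarith
      have h4 : (c : ℝ) * Real.log 7 * 1 ≤ c * Real.log 7 * s :=
        mul_le_mul_of_nonneg_left hs1 (by positivity)
      have h5 : ((c * c : ℕ) : ℝ) * Real.log (2 * (2 ^ m * (2 * 4) + 1) + 1) ≤
          (c * c : ℕ) * ((Real.log 19 + 1) * s) :=
        mul_le_mul_of_nonneg_left (h1.trans h2) (Nat.cast_nonneg _)
      unfold ini
      rw [add_mul]
      linarith
    have e3 : Real.log (2 * (c * 2 ^ kap + 1) + 1) ≤ (Real.log A₁ + 1) * s := by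
      have h1 : Real.log (2 * (c * 2 ^ kap + 1) + 1) ≤ Real.log A₁ + kap := by
        refine log_lin hA₁1 kap (by positivity) ?_
        have : (1 : ℝ) ≤ 2 ^ kap := one_le_pow₀ (by norm_num)
        rw [hA₁]
        nlinarith
      have h3 : Real.log A₁ * 1 ≤ Real.log A₁ * s := mul_le_mul_of_nonneg_left hs1 k1
      rw [add_mul, one_mul]
      linarith
    have e4 : Real.log (2 * (2 ^ (c + 1) * (2 * 2 ^ kap) + 1) + 1) ≤ (Real.log A₂ + 1) * s := by
      have h1 : Real.log (2 * (2 ^ (c + 1) * (2 * 2 ^ kap) + 1) + 1) ≤ Real.log A₂ + kap := by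
        refine log_lin hA₂1 kap (by positivity) ?_
        have : (1 : ℝ) ≤ 2 ^ kap := one_le_pow₀ (by norm_num)
        rw [hA₂]
        nlinarith
      have h3 : Real.log A₂ * 1 ≤ Real.log A₂ * s := mul_le_mul_of_nonneg_left hs1 k2
      rw [add_mul, one_mul]
      linarith
    have f1 := mul_le_mul_of_nonneg_right e1 l0
    have f2 := mul_le_mul_of_nonneg_left e2 hr
    have f3 := mul_le_mul_of_nonneg_left e3 hc
    have f4 := mul_le_mul_of_nonneg_left (mul_le_mul_of_nonneg_left e4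
      (Nat.cast_nonneg (c * c))) hr
    have f5 : (r : ℝ) * (c * Real.log (2 * (c + 1) + 1)) * 1 ≤
        r * (c * Real.log (2 * (c + 1) + 1)) * s :=
      mul_le_mul_of_nonneg_left hs1 (by positivity)
    unfold lsl
    rw [hC]
    have e5 : (1 + (c + 1) * loss c r 4 (2 * B) +
      r * (c * Real.log 7 + (c * c : ℕ) * (Real.log 19 + 1)) +
      r * (c * Real.log (2 * (c + 1) + 1)) + c * (Real.log A₁ + 1) +
      r * ((c * c : ℕ) * (Real.log A₂ + 1))) * s =
      s + (c + 1) * s * loss c r 4 (2 * B) +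
      r * ((c * Real.log 7 + (c * c : ℕ) * (Real.log 19 + 1)) * s) +
      r * (c * Real.log (2 * (c + 1) + 1)) * s + c * ((Real.log A₁ + 1) * s) +
      r * ((c * c : ℕ) * ((Real.log A₂ + 1) * s)) := by ring
    rw [e5]
    linarith

end Pool.MKE
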